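import Mathlib

/-!
# A non-trivial `(3, 1, 1, 1)`-factorisation of `K₁₂`

The vertices are the residues modulo `11` and a further vertex `11`.  The set of perfect matchings
is invariant under the translations modulo `11` (which fix the vertex `11`); the members
containing the pair `{0, 11}` are those for which a certain sum of weights modulo `10000` is in a
certain table.  It has `4158` of the `10395` perfect matchings of `K₁₂`, and any three pairwise
disjoint edges are in exactly six of its members.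
-/

set_option autoImplicit false

namespace Pool.Agent.Results.MP_5a4a69_co.IndexSix

open Finset

/-- A perfect matching of the complete graph on `Fin N`, given by the map sending every vertex to
its partner. -/
def IsPM {N : ℕ} (f : Fin N → Fin N) : Prop := (∀ x, f x ≠ x) ∧ ∀ x, f (f x) = x

/-- `D` is an `(n - 3, 1, 1, 1)`-factorisation of the complete graph on `2 n` vertices of index
`c`: a non-empty set of perfect matchings such that any three pairwise disjoint edges
`{x 0, x 1}`, `{x 2, x 3}`, `{x 4, x 5}` are together in exactly `c > 0` members of `D`. -/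
def IsFactorisation (n : ℕ) (D : Set (Fin (2 * n) → Fin (2 * n))) (c : ℕ) : Prop :=
  D.Nonempty ∧ (∀ f ∈ D, IsPM f) ∧ 0 < c ∧
    ∀ x : Fin 6 → Fin (2 * n), Function.Injective x →
      {f ∈ D | f (x 0) = x 1 ∧ f (x 2) = x 3 ∧ f (x 4) = x 5}.ncard = c

/-- packed table of weights -/
def WW : ℕ := 11245113275020124830979835215242866019007404530095324949528938193443929749861049893044876609189332226975812909820840651519983223911083430588379046247380471736700997039579770828200586033929235424364644743727488725722384521384300650592032064794052998721967604772819562867380399767241572968478990762642537882389587268525012439397993146575894417846983768492472946507711752406108219712920873999357372263885497366062467173480852518276532358295278412656874323559197940029325312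

/-- packed table of values -/
def TT : ℕ := 1251785207631316147922995422627619719778882783595805022850221409373759961877500101495368956333609724083783741767436028634046948590215080580526791157116424741988444575390583831664532471212536006148659198069847100815166087591299409583432104010992594204316382693063343881187720353403492227507941565381782788721472203706468891845771656633853362158336031716174202168769517623611147896123412144419494526736158275585105198478264605613157494156156851079104800888696077810821880538153003808547552557624301260444486195760760980819939294744775984116787293117562672559386582563252492640297198267855825720452044162698820789098812351887864806796426786713698861688542491116907640743536149268206756179959820266217804207541386665452094824550405773380259311640865393552434133176004947136804862265455800009864067926629553969923585887938790416749113961923368492393960784348364819498291767274915883884610950105014773667399138243196280245556075038457230610970409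28694893018351611451607479049663035017838530223746817631139631876551615530117888214017114604829652418382070557830141670707093095228380578206206307672183085131377483239921017961368657768254922689707342073465428497588782369021037399019371146763637578484205107704979254865352912116554453428146140634783499653059093435455406574098869898723925767771466962162652911060061577322229930044246491868371278356821973430059682230892575560205348554749517361912570779149304656902705885875777387659906882559915823960790359819117822770179876425688515080316860607571395760741117955624104805842025406782705793664835838757122582823924001037755594193727167713950086873606102093285279225358728159996981302186195269117179323886309043382132494243579723871999236064939719133404045318433244582421716800173384917814074322375419405415164680221650826208152739349271921586033074747526042919779783610551638785927686237167245059295028836440967558756418887075672783210739622947388005623707102895900942398695787294629822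9990207872997971079599208063966431877061243683967277040165414860166227997262910484015422989993584800199106746824707941429160020101177336736805534757841310047907356049357870313822895673224819483276726760228524159159943624851361575890523571658204356787292026076146173479584561446409812667952206214134511119481513648515476052588729646697697108676633776601764602553469996250591582059080238332338383136936161158733524513112836093877870657340126975764785297440157049243090435148487064949532180604154955883922655531297351663907822926338179102699423305967705153921313649446333801219086379093194345791842520801325786962110933561449709588548540368602972480812764206762734523539546793446409127554291230166742692053815216144313217136879256992652542271263908072137640061053793350005961637329611163543681763102045444103490160309417553245153841173839053963916815486522993373641907423853683040277069462863053953975329740908270667946795514235299287037676758185975562503623290685657101669949748849305108990236580082371814563909187846017777953498869748810837918498212907955235227448783189674637551206400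

/-- weight of a pair -/
def wt (u v : ℕ) : ℕ := (WW >>> (13 * (11 * u + v))) % 8192

/-- difference modulo eleven -/
def dl (a x : ℕ) : ℕ := (x + 11 - a) % 11

/-- weight of a pair after a translation -/
def G (a x y : ℕ) : ℕ := wt (dl a x) (dl a y)

/-- table lookup -/
def tb (n : ℕ) : ℕ := (TT.testBit (n % 10000)).toNat

def three (a s q1 q2 q3 q4 : ℕ) : ℕ :=
  tb (2 * (s + (G a q1 q2 + G a q3 q4))) + tb (2 * (s + (G a q1 q3 + G a q2 q4))) +
    tb (2 * (s + (G a q1 q4 + G a q2 q3)))

def cntA (c d e g p6 p7 p8 p9 p10 p11 : ℕ) : ℕ :=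
  three 0 (G 0 c d + G 0 e g + G 0 p6 p7) p8 p9 p10 p11 +
  three 0 (G 0 c d + G 0 e g + G 0 p6 p8) p7 p9 p10 p11 +
  three 0 (G 0 c d + G 0 e g + G 0 p6 p9) p7 p8 p10 p11 +
  three 0 (G 0 c d + G 0 e g + G 0 p6 p10) p7 p8 p9 p11 +
  three 0 (G 0 c d + G 0 e g + G 0 p6 p11) p7 p8 p9 p10

def cntB (b c d e g p6 p7 p8 p9 p10 : ℕ) : ℕ :=
  three p6 (G p6 0 b + G p6 c d + G p6 e g) p7 p8 p9 p10 +
  three p7 (G p7 0 b + G p7 c d + G p7 e g) p6 p8 p9 p10 +
  three p8 (G p8 0 b + G p8 c d + G p8 e g) p6 p7 p9 p10 +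
  three p9 (G p9 0 b + G p9 c d + G p9 e g) p6 p7 p8 p10 +
  three p10 (G p10 0 b + G p10 c d + G p10 e g) p6 p7 p8 p9

def chkA (c d e g : ℕ) : Bool :=
  match (List.range' 1 10).filter (fun x => !(x == c || x == d || x == e || x == g)) with
  | [p6, p7, p8, p9, p10, p11] => cntA c d e g p6 p7 p8 p9 p10 p11 == 6
  | _ => false

def chkB (b c d e g : ℕ) : Bool :=
  match (List.range' 1 10).filter (fun x => !(x == b || x == c || x == d || x == e || x == g)) with
  | [p6, p7, p8, p9, p10] => cntB b c d e g p6 p7 p8 p9 p10 == 6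
  | _ => false

def allA : Bool := (List.range' 1 10).all fun c => (List.range' 1 10).all fun d =>
  !(Nat.blt c d) || (List.range' 1 10).all fun e => !(Nat.blt c e) || e == d ||
    (List.range' 1 10).all fun g => !(Nat.blt e g) || g == d || chkA c d e g

def allB (b : ℕ) : Bool := (List.range' 1 10).all fun c => c == b || (List.range' 1 10).all fun d =>
  !(Nat.blt c d) || d == b || (List.range' 1 10).all fun e => !(Nat.blt c e) || e == d || e == b ||
    (List.range' 1 10).all fun g => !(Nat.blt e g) || g == d || g == b || chkB b c d e g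

theorem allA_true : allA = true := by decide +kernel

theorem allB_true : (List.range' 1 10).all allB = true := by decide +kernel

/-! ### The set of perfect matchings -/

/-- weight with the convention that the pair containing the vertex `11` has weight zero -/
def F (a x y : ℕ) : ℕ := if x = 11 ∨ y = 11 then 0 else G a x y

lemma wt_symm : ∀ u < 11, ∀ v < 11, wt u v = wt v u := by decide +kernel

lemma G_symm (a x y : ℕ) : G a x y = G a y x := by
  unfold G
  exact wt_symm _ (Nat.mod_lt _ (by norm_num)) _ (Nat.mod_lt _ (by norm_num))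

lemma F_symm (a x y : ℕ) : F a x y = F a y x := by
  unfold F
  rw [G_symm]
  by_cases h : x = 11 ∨ y = 11
  · rw [if_pos h, if_pos h.symm]
  · rw [if_neg h, if_neg (fun h' => h h'.symm)]

lemma F_eq (a x y : ℕ) (hx : x ≠ 11) (hy : y ≠ 11) : F a x y = G a x y := by
  unfold F
  rw [if_neg (by tauto)]

lemma F_l (a y : ℕ) : F a 11 y = 0 := by unfold F; simp
lemma F_r (a x : ℕ) : F a x 11 = 0 := by unfold F; simp

/-- the sum of the weights -/
def hsh (f : Fin 12 → Fin 12) : ℕ := ∑ x : Fin 12, F (f 11).val x.val (f x).val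

/-- the set of perfect matchings -/
def D : Set (Fin 12 → Fin 12) := {f | IsPM f ∧ tb (hsh f) = 1}

/-- the fifteen completions -/
def H : Fin 15 → Fin 12 → Fin 12 :=
  ![![1, 0, 3, 2, 5, 4, 7, 6, 9, 8, 11, 10],
    ![1, 0, 3, 2, 5, 4, 7, 6, 10, 11, 8, 9],
    ![1, 0, 3, 2, 5, 4, 7, 6, 11, 10, 9, 8],
    ![1, 0, 3, 2, 5, 4, 8, 9, 6, 7, 11, 10],
    ![1, 0, 3, 2, 5, 4, 8, 10, 6, 11, 7, 9],
    ![1, 0, 3, 2, 5, 4, 8, 11, 6, 10, 9, 7],
    ![1, 0, 3, 2, 5, 4, 9, 8, 7, 6, 11, 10],
    ![1, 0, 3, 2, 5, 4, 9, 10, 11, 6, 7, 8],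
    ![1, 0, 3, 2, 5, 4, 9, 11, 10, 6, 8, 7],
    ![1, 0, 3, 2, 5, 4, 10, 8, 7, 11, 6, 9],
    ![1, 0, 3, 2, 5, 4, 10, 9, 11, 7, 6, 8],
    ![1, 0, 3, 2, 5, 4, 10, 11, 9, 8, 6, 7],
    ![1, 0, 3, 2, 5, 4, 11, 8, 7, 10, 9, 6],
    ![1, 0, 3, 2, 5, 4, 11, 9, 10, 7, 8, 6],
    ![1, 0, 3, 2, 5, 4, 11, 10, 9, 8, 7, 6]]

lemma H_pm : ∀ i : Fin 15, (∀ x : Fin 12, H i x ≠ x) ∧ ∀ x : Fin 12, H i (H i x) = x := by
  decide

lemma H_inj : Function.Injective H := by decide

lemma H_T : ∀ i : Fin 15, H i 0 = 1 ∧ H i 2 = 3 ∧ H i 4 = 5 := by decide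

set_option synthInstance.maxSize 4096 in
lemma enum : ∀ y6 : Fin 12, 6 ≤ y6 → y6 ≠ 6 → ∀ y7 : Fin 12, 6 ≤ y7 → y7 ≠ 7 → y6 ≠ y7 →
    (y6 = 7 ↔ y7 = 6) →
    ∀ y8 : Fin 12, 6 ≤ y8 → y8 ≠ 8 → y6 ≠ y8 → y7 ≠ y8 → (y6 = 8 ↔ y8 = 6) → (y7 = 8 ↔ y8 = 7) →
    ∀ y9 : Fin 12, 6 ≤ y9 → y9 ≠ 9 → y6 ≠ y9 → y7 ≠ y9 → y8 ≠ y9 → (y6 = 9 ↔ y9 = 6) →
      (y7 = 9 ↔ y9 = 7) → (y8 = 9 ↔ y9 = 8) →
    ∀ y10 : Fin 12, 6 ≤ y10 → y10 ≠ 10 → (y6 = 10 ↔ y10 = 6) → (y7 = 10 ↔ y10 = 7) →
      (y8 = 10 ↔ y10 = 8) → (y9 = 10 ↔ y10 = 9) →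
    ∀ y11 : Fin 12, 6 ≤ y11 → y11 ≠ 11 → (y6 = 11 ↔ y11 = 6) → (y7 = 11 ↔ y11 = 7) →
      (y8 = 11 ↔ y11 = 8) → (y9 = 11 ↔ y11 = 9) → (y10 = 11 ↔ y11 = 10) →
    ∃ i : Fin 15, H i 6 = y6 ∧ H i 7 = y7 ∧ H i 8 = y8 ∧ H i 9 = y9 ∧ H i 10 = y10 ∧
      H i 11 = y11 := by
  decide +kernel

lemma PM_iff {f : Fin 12 → Fin 12} (hf : IsPM f) (a b : Fin 12) : f a = b ↔ f b = a := by
  constructor
  · rintro rfl; exact hf.2 a
  · rintro rfl; exact hf.2 b

lemma enumH (g : Fin 12 → Fin 12) (hg : IsPM g) (h0 : g 0 = 1) (h2 : g 2 = 3) (h4 : g 4 = 5) :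
    ∃ i, g = H i := by
  have h1 : g 1 = 0 := (PM_iff hg 0 1).mp h0
  have h3 : g 3 = 2 := (PM_iff hg 2 3).mp h2
  have h5 : g 5 = 4 := (PM_iff hg 4 5).mp h4
  have hge : ∀ k : Fin 12, 6 ≤ k → 6 ≤ g k := by
    intro k hk
    by_contra hlt
    have hlow : ∀ m : Fin 12, ¬ 6 ≤ m → m = 0 ∨ m = 1 ∨ m = 2 ∨ m = 3 ∨ m = 4 ∨ m = 5 := by
      decide
    have hk' : g (g k) = k := hg.2 k
    rcases hlow _ hlt with h | h | h | h | h | h <;> rw [h] at hk'
    · rw [h0] at hk'; rw [← hk'] at hk; exact absurd hk (by decide)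
    · rw [h1] at hk'; rw [← hk'] at hk; exact absurd hk (by decide)
    · rw [h2] at hk'; rw [← hk'] at hk; exact absurd hk (by decide)
    · rw [h3] at hk'; rw [← hk'] at hk; exact absurd hk (by decide)
    · rw [h4] at hk'; rw [← hk'] at hk; exact absurd hk (by decide)
    · rw [h5] at hk'; rw [← hk'] at hk; exact absurd hk (by decide)
  have hinj : Function.Injective g := by
    intro a b hab
    rw [← hg.2 a, hab, hg.2]
  have hne : ∀ a b : Fin 12, a ≠ b → g a ≠ g b := fun a b h h' => h (hinj h')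
  obtain ⟨i, e6, e7, e8, e9, e10, e11⟩ := enum (g 6) (hge 6 (by decide)) (hg.1 6)
    (g 7) (hge 7 (by decide)) (hg.1 7) (hne 6 7 (by decide)) (PM_iff hg 6 7)
    (g 8) (hge 8 (by decide)) (hg.1 8) (hne 6 8 (by decide)) (hne 7 8 (by decide))
      (PM_iff hg 6 8) (PM_iff hg 7 8)
    (g 9) (hge 9 (by decide)) (hg.1 9) (hne 6 9 (by decide)) (hne 7 9 (by decide))
      (hne 8 9 (by decide)) (PM_iff hg 6 9) (PM_iff hg 7 9) (PM_iff hg 8 9)
    (g 10) (hge 10 (by decide)) (hg.1 10) (PM_iff hg 6 10) (PM_iff hg 7 10) (PM_iff hg 8 10)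
      (PM_iff hg 9 10)
    (g 11) (hge 11 (by decide)) (hg.1 11) (PM_iff hg 6 11) (PM_iff hg 7 11) (PM_iff hg 8 11)
      (PM_iff hg 9 11) (PM_iff hg 10 11)
  have hlowH : ∀ i : Fin 15, H i 0 = 1 ∧ H i 1 = 0 ∧ H i 2 = 3 ∧ H i 3 = 2 ∧ H i 4 = 5 ∧
      H i 5 = 4 := by decide
  obtain ⟨k0, k1, k2, k3, k4, k5⟩ := hlowH i
  refine ⟨i, ?_⟩
  funext k
  fin_cases k
  · exact h0.trans k0.symm
  · exact h1.trans k1.symm
  · exact h2.trans k2.symm
  · exact h3.trans k3.symm
  · exact h4.trans k4.symm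
  · exact h5.trans k5.symm
  · exact e6.symm
  · exact e7.symm
  · exact e8.symm
  · exact e9.symm
  · exact e10.symm
  · exact e11.symm

/-- the number of members of `D` containing three given edges -/
noncomputable def cnt (a b c d e g : Fin 12) : ℕ :=
  {f ∈ D | f a = b ∧ f c = d ∧ f e = g}.ncard

/-- conjugate -/
def conj (φ : Equiv.Perm (Fin 12)) (f : Fin 12 → Fin 12) : Fin 12 → Fin 12 :=
  fun x => φ (f (φ.symm x))

lemma conj_pm (φ : Equiv.Perm (Fin 12)) {f : Fin 12 → Fin 12} (hf : IsPM f) :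
    IsPM (conj φ f) := by
  constructor
  · intro x h
    apply hf.1 (φ.symm x)
    have := congrArg φ.symm h
    simpa [conj] using this
  · intro x
    simp [conj, hf.2]

lemma conj_conj_symm (φ : Equiv.Perm (Fin 12)) (f : Fin 12 → Fin 12) :
    conj φ (conj φ.symm f) = f := by
  funext x; simp [conj]

lemma conj_symm_conj (φ : Equiv.Perm (Fin 12)) (f : Fin 12 → Fin 12) :
    conj φ.symm (conj φ f) = f := by
  funext x; simp [conj]

lemma conj_inj (φ : Equiv.Perm (Fin 12)) : Function.Injective (conj φ) := by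
  intro f g h
  rw [← conj_symm_conj φ f, h, conj_symm_conj]

lemma cnt_eq (φ : Equiv.Perm (Fin 12)) :
    cnt (φ 0) (φ 1) (φ 2) (φ 3) (φ 4) (φ 5) = ∑ i : Fin 15, tb (hsh (conj φ (H i))) := by
  classical
  have htb : ∀ n, tb n = 0 ∨ tb n = 1 := by
    intro n
    unfold tb
    cases (TT.testBit (n % 10000)) <;> simp
  have e1 : {f ∈ D | f (φ 0) = φ 1 ∧ f (φ 2) = φ 3 ∧ f (φ 4) = φ 5} =
      ((((univ : Finset (Fin 15)).filter fun i => tb (hsh (conj φ (H i))) = 1).image
        fun i => conj φ (H i) : Finset (Fin 12 → Fin 12)) : Set (Fin 12 → Fin 12)) := by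
    ext f
    simp only [D, Set.mem_ofPred_eq, Finset.coe_image, Finset.coe_filter, Finset.mem_univ,
      true_and, Set.mem_image]
    constructor
    · rintro ⟨⟨hf, ht⟩, h0, h2, h4⟩
      obtain ⟨i, hi⟩ := enumH (conj φ.symm f) (conj_pm φ.symm hf)
        (by simp [conj, h0]) (by simp [conj, h2]) (by simp [conj, h4])
      have hf' : conj φ (H i) = f := by rw [← hi, conj_conj_symm]
      exact ⟨i, by rw [hf']; exact ht, hf'⟩
    · rintro ⟨i, hi, rfl⟩
      refine ⟨⟨conj_pm φ (H_pm i), hi⟩, ?_, ?_, ?_⟩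
      · simp [conj, (H_T i).1]
      · simp [conj, (H_T i).2.1]
      · simp [conj, (H_T i).2.2]
  unfold cnt
  rw [e1, Set.ncard_coe_finset, Finset.card_image_of_injective, Finset.card_filter]
  · refine Finset.sum_congr rfl fun i _ => ?_
    rcases htb (hsh (conj φ (H i))) with h | h <;> simp [h]
  · intro i j h
    exact H_inj (conj_inj φ h)

lemma hsh_conj (φ : Equiv.Perm (Fin 12)) (f : Fin 12 → Fin 12) :
    hsh (conj φ f) = ∑ k : Fin 12, F (φ (f (φ.symm 11))).val (φ k).val (φ (f k)).val := by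
  unfold hsh
  rw [← Equiv.sum_comp φ]
  refine Finset.sum_congr rfl fun k _ => ?_
  simp [conj]

/-! ### Symmetries -/

lemma cnt_swap (a b c d e g : Fin 12) : cnt a b c d e g = cnt b a c d e g := by
  unfold cnt
  congr 1
  ext f
  simp only [Set.mem_ofPred_eq]
  constructor
  · rintro ⟨hf, h1, h2⟩
    exact ⟨hf, (PM_iff hf.1 a b).mp h1, h2⟩
  · rintro ⟨hf, h1, h2⟩
    exact ⟨hf, (PM_iff hf.1 a b).mpr h1, h2⟩

lemma cnt_rot (a b c d e g : Fin 12) : cnt a b c d e g = cnt c d e g a b := by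
  unfold cnt
  congr 1
  ext f
  simp only [Set.mem_ofPred_eq]
  tauto

lemma cnt_ex (a b c d e g : Fin 12) : cnt a b c d e g = cnt a b e g c d := by
  unfold cnt
  congr 1
  ext f
  simp only [Set.mem_ofPred_eq]
  tauto

/-- the translation -/
def sh : Equiv.Perm (Fin 12) where
  toFun := ![1, 2, 3, 4, 5, 6, 7, 8, 9, 10, 0, 11]
  invFun := ![10, 0, 1, 2, 3, 4, 5, 6, 7, 8, 9, 11]
  left_inv := by decide
  right_inv := by decide

lemma F_sh : ∀ a : Fin 12, a ≠ 11 → ∀ x y : Fin 12,
    F (sh a).val (sh x).val (sh y).val = F a.val x.val y.val := by decide +kernel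

lemma hsh_sh (f : Fin 12 → Fin 12) (hf : IsPM f) : hsh (conj sh f) = hsh f := by
  rw [hsh_conj]
  unfold hsh
  refine Finset.sum_congr rfl fun k _ => ?_
  have h11 : sh.symm 11 = 11 := by decide
  rw [h11, F_sh _ (hf.1 11)]

lemma D_sh (f : Fin 12 → Fin 12) (hf : f ∈ D) : conj sh f ∈ D :=
  ⟨conj_pm sh hf.1, by rw [hsh_sh f hf.1]; exact hf.2⟩

lemma D_sh_symm (f : Fin 12 → Fin 12) (hf : f ∈ D) : conj sh.symm f ∈ D := by
  refine ⟨conj_pm sh.symm hf.1, ?_⟩
  rw [← hsh_sh _ (conj_pm sh.symm hf.1), conj_conj_symm]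
  exact hf.2

lemma cnt_sh (a b c d e g : Fin 12) :
    cnt (sh a) (sh b) (sh c) (sh d) (sh e) (sh g) = cnt a b c d e g := by
  unfold cnt
  have : {f ∈ D | f (sh a) = sh b ∧ f (sh c) = sh d ∧ f (sh e) = sh g} =
      conj sh '' {f ∈ D | f a = b ∧ f c = d ∧ f e = g} := by
    ext f
    simp only [Set.mem_ofPred_eq, Set.mem_image]
    constructor
    · rintro ⟨hf, h1, h2, h3⟩
      refine ⟨conj sh.symm f, ⟨D_sh_symm f hf, ?_, ?_, ?_⟩, conj_conj_symm sh f⟩
      · simp [conj, h1]
      · simp [conj, h2]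
      · simp [conj, h3]
    · rintro ⟨f, ⟨hf, h1, h2, h3⟩, rfl⟩
      refine ⟨D_sh f hf, ?_, ?_, ?_⟩
      · simp [conj, h1]
      · simp [conj, h2]
      · simp [conj, h3]
  rw [this, Set.ncard_image_of_injective _ (conj_inj sh)]

/-! ### The two kinds of triples -/

def B1 : Fin 15 → Fin 12 := ![7, 7, 7, 8, 8, 8, 9, 9, 9, 10, 10, 10, 11, 11, 11]
def A2 : Fin 15 → Fin 12 := ![8, 8, 8, 7, 7, 7, 7, 7, 7, 7, 7, 7, 7, 7, 7]
def B2 : Fin 15 → Fin 12 := ![9, 10, 11, 9, 10, 11, 8, 10, 11, 8, 9, 11, 8, 9, 10]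
def A3 : Fin 15 → Fin 12 := ![10, 9, 9, 10, 9, 9, 10, 8, 8, 9, 8, 8, 9, 8, 8]
def B3 : Fin 15 → Fin 12 := ![11, 11, 10, 11, 11, 10, 11, 11, 10, 11, 11, 9, 10, 10, 9]

lemma inner (a : ℕ) (v : Fin 12 → ℕ) (i : Fin 15) :
    ∑ k : Fin 12, F a (v k) (v (H i k)) = 2 * (F a (v 0) (v 1) + F a (v 2) (v 3) +
      F a (v 4) (v 5) + F a (v 6) (v (B1 i)) + F a (v (A2 i)) (v (B2 i)) +
      F a (v (A3 i)) (v (B3 i))) := by
  have s01 := F_symm a (v 0) (v 1)
  have s23 := F_symm a (v 2) (v 3)
  have s45 := F_symm a (v 4) (v 5)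
  have s6_7 := F_symm a (v 6) (v 7)
  have s6_8 := F_symm a (v 6) (v 8)
  have s6_9 := F_symm a (v 6) (v 9)
  have s6_10 := F_symm a (v 6) (v 10)
  have s6_11 := F_symm a (v 6) (v 11)
  have s7_8 := F_symm a (v 7) (v 8)
  have s7_9 := F_symm a (v 7) (v 9)
  have s7_10 := F_symm a (v 7) (v 10)
  have s7_11 := F_symm a (v 7) (v 11)
  have s8_9 := F_symm a (v 8) (v 9)
  have s8_10 := F_symm a (v 8) (v 10)
  have s8_11 := F_symm a (v 8) (v 11)
  have s9_10 := F_symm a (v 9) (v 10)
  have s9_11 := F_symm a (v 9) (v 11)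
  have s10_11 := F_symm a (v 10) (v 11)
  fin_cases i <;> simp [Fin.sum_univ_succ, H, B1, A2, B2, A3, B3] <;> omega

lemma caseA (φ : Equiv.Perm (Fin 12)) (h0 : φ 0 = 11) (h1 : φ 1 = 0) :
    cnt (φ 0) (φ 1) (φ 2) (φ 3) (φ 4) (φ 5) = cntA (φ 2).val (φ 3).val (φ 4).val (φ 5).val
      (φ 6).val (φ 7).val (φ 8).val (φ 9).val (φ 10).val (φ 11).val := by
  have hs : φ.symm 11 = 0 := by rw [← h0]; simp
  have hne : ∀ k : Fin 12, k ≠ 0 → (φ k).val ≠ 11 := by
    intro k hk h
    apply hk
    apply φ.injective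
    rw [h0]
    exact Fin.ext h
  have hF : ∀ j k : Fin 12, j ≠ 0 → k ≠ 0 → F 0 (φ j).val (φ k).val = G 0 (φ j).val (φ k).val :=
    fun j k hj hk => F_eq _ _ _ (hne j hj) (hne k hk)
  have h01 : F 0 (φ 0).val (φ 1).val = 0 := by rw [h0]; exact F_l _ _
  rw [cnt_eq]
  have hi : ∀ i : Fin 15, hsh (conj φ (H i)) = 2 * ((G 0 (φ 2).val (φ 3).val +
      G 0 (φ 4).val (φ 5).val + F 0 (φ 6).val (φ (B1 i)).val) + (F 0 (φ (A2 i)).val (φ (B2 i)).val +
      F 0 (φ (A3 i)).val (φ (B3 i)).val)) := by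
    intro i
    rw [hsh_conj, hs, (H_T i).1, h1]
    have := inner 0 (fun k => (φ k).val) i
    simp only [Fin.val_zero] at this ⊢
    rw [this, h01, hF 2 3 (by decide) (by decide), hF 4 5 (by decide) (by decide)]
    ring
  simp only [hi]
  unfold cntA three
  simp only [Fin.sum_univ_succ, Finset.univ_eq_empty, Finset.sum_empty]
  simp [B1, A2, B2, A3, B3]
  rw [hF 6 7 (by decide) (by decide), hF 6 8 (by decide) (by decide),
    hF 6 9 (by decide) (by decide), hF 6 10 (by decide) (by decide),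
    hF 6 11 (by decide) (by decide), hF 7 8 (by decide) (by decide),
    hF 7 9 (by decide) (by decide), hF 7 10 (by decide) (by decide),
    hF 7 11 (by decide) (by decide), hF 8 9 (by decide) (by decide),
    hF 8 10 (by decide) (by decide), hF 8 11 (by decide) (by decide),
    hF 9 10 (by decide) (by decide), hF 9 11 (by decide) (by decide),
    hF 10 11 (by decide) (by decide)]
  omega

lemma caseB (φ : Equiv.Perm (Fin 12)) (h0 : φ 0 = 0) (h11 : φ 11 = 11) :
    cnt (φ 0) (φ 1) (φ 2) (φ 3) (φ 4) (φ 5) = cntB (φ 1).val (φ 2).val (φ 3).val (φ 4).val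
      (φ 5).val (φ 6).val (φ 7).val (φ 8).val (φ 9).val (φ 10).val := by
  have hs : φ.symm 11 = 11 := by
    apply φ.injective
    rw [h11]; simp
  have hne : ∀ k : Fin 12, k ≠ 11 → (φ k).val ≠ 11 := by
    intro k hk h
    apply hk
    apply φ.injective
    rw [h11]
    exact Fin.ext h
  have hF : ∀ j k : Fin 12, j ≠ 11 → k ≠ 11 → ∀ a,
      F a (φ j).val (φ k).val = G a (φ j).val (φ k).val :=
    fun j k hj hk a => F_eq _ _ _ (hne j hj) (hne k hk)
  have hZ : ∀ (j : Fin 12) (a : ℕ), F a (φ j).val (φ 11).val = 0 := by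
    intro j a
    rw [h11]
    exact F_r _ _
  have hi : ∀ i : Fin 15, hsh (conj φ (H i)) = 2 * (F (φ (H i 11)).val (φ 0).val (φ 1).val +
      F (φ (H i 11)).val (φ 2).val (φ 3).val + F (φ (H i 11)).val (φ 4).val (φ 5).val +
      F (φ (H i 11)).val (φ 6).val (φ (B1 i)).val +
      F (φ (H i 11)).val (φ (A2 i)).val (φ (B2 i)).val +
      F (φ (H i 11)).val (φ (A3 i)).val (φ (B3 i)).val) := by
    intro i
    rw [hsh_conj, hs]
    exact inner _ (fun k => (φ k).val) i
  have f0_1 := hF 0 1 (by decide) (by decide)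
  have f2_3 := hF 2 3 (by decide) (by decide)
  have f4_5 := hF 4 5 (by decide) (by decide)
  have f6_7 := hF 6 7 (by decide) (by decide)
  have f6_8 := hF 6 8 (by decide) (by decide)
  have f6_9 := hF 6 9 (by decide) (by decide)
  have f6_10 := hF 6 10 (by decide) (by decide)
  have f7_8 := hF 7 8 (by decide) (by decide)
  have f7_9 := hF 7 9 (by decide) (by decide)
  have f7_10 := hF 7 10 (by decide) (by decide)
  have f8_9 := hF 8 9 (by decide) (by decide)
  have f8_10 := hF 8 10 (by decide) (by decide)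
  have f9_10 := hF 9 10 (by decide) (by decide)
  have h0' : (φ 0).val = 0 := by rw [h0]; rfl
  have g0_1 : ∀ a, F a 0 (φ 1).val = G a 0 (φ 1).val := by
    intro a
    have := f0_1 a
    rwa [h0'] at this
  rw [cnt_eq]
  simp only [hi]
  unfold cntB three
  simp only [Fin.sum_univ_succ, Finset.univ_eq_empty, Finset.sum_empty]
  simp [B1, A2, B2, A3, B3, H, -Fin.val_zero, -Fin.isValue]
  simp only [f0_1, f2_3, f4_5, f6_7, f6_8, f6_9, f6_10, f7_8, f7_9, f7_10, f8_9, f8_10, f9_10, hZ, h0', g0_1, add_zero, zero_add, add_assoc]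
  omega

/-! ### Reduction of the general case -/

lemma chkA_true {c d e g : ℕ} (hc : c ∈ List.range' 1 10) (hd : d ∈ List.range' 1 10)
    (he : e ∈ List.range' 1 10) (hg : g ∈ List.range' 1 10) (hcd : c < d) (hce : c < e)
    (heg : e < g) (hed : e ≠ d) (hgd : g ≠ d) : chkA c d e g = true := by
  have h1 := List.all_eq_true.mp (List.all_eq_true.mp allA_true c hc) d hd
  have b1 : Nat.blt c d = true := Nat.blt_eq.mpr hcd
  have b2 : Nat.blt c e = true := Nat.blt_eq.mpr hce
  have b3 : Nat.blt e g = true := Nat.blt_eq.mpr heg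
  have b4 : (e == d) = false := by simpa using hed
  have b5 : (g == d) = false := by simpa using hgd
  rw [b1, Bool.not_true, Bool.false_or] at h1
  have h2 := List.all_eq_true.mp h1 e he
  rw [b2, b4, Bool.not_true, Bool.false_or, Bool.false_or] at h2
  have h3 := List.all_eq_true.mp h2 g hg
  rwa [b3, b5, Bool.not_true, Bool.false_or, Bool.false_or] at h3

lemma chkB_true {b c d e g : ℕ} (hb : b ∈ List.range' 1 10) (hc : c ∈ List.range' 1 10)
    (hd : d ∈ List.range' 1 10) (he : e ∈ List.range' 1 10) (hg : g ∈ List.range' 1 10)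
    (hcb : c ≠ b) (hdb : d ≠ b) (heb : e ≠ b) (hgb : g ≠ b) (hcd : c < d) (hce : c < e)
    (heg : e < g) (hed : e ≠ d) (hgd : g ≠ d) : chkB b c d e g = true := by
  have h1 := List.all_eq_true.mp (List.all_eq_true.mp allB_true b hb) c hc
  have b1 : Nat.blt c d = true := Nat.blt_eq.mpr hcd
  have b2 : Nat.blt c e = true := Nat.blt_eq.mpr hce
  have b3 : Nat.blt e g = true := Nat.blt_eq.mpr heg
  have b4 : (e == d) = false := by simpa using hed
  have b5 : (g == d) = false := by simpa using hgd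
  have b6 : (c == b) = false := by simpa using hcb
  have b7 : (d == b) = false := by simpa using hdb
  have b8 : (e == b) = false := by simpa using heb
  have b9 : (g == b) = false := by simpa using hgb
  rw [b6, Bool.false_or] at h1
  have h1' := List.all_eq_true.mp h1 d hd
  rw [b1, b7, Bool.not_true, Bool.false_or, Bool.false_or] at h1'
  have h2 := List.all_eq_true.mp h1' e he
  rw [b2, b4, b8, Bool.not_true, Bool.false_or, Bool.false_or, Bool.false_or] at h2
  have h3 := List.all_eq_true.mp h2 g hg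
  rwa [b3, b5, b9, Bool.not_true, Bool.false_or, Bool.false_or, Bool.false_or] at h3

/-- a permutation from a list without repetitions -/
lemma exists_perm (w : Fin 12 → ℕ) (hlt : ∀ i, w i < 12) (hinj : Function.Injective w) :
    ∃ φ : Equiv.Perm (Fin 12), ∀ i, (φ i).val = w i := by
  have h : Function.Bijective (fun i : Fin 12 => (⟨w i, hlt i⟩ : Fin 12)) := by
    rw [Fintype.bijective_iff_injective_and_card]
    refine ⟨fun i j hij => hinj ?_, rfl⟩
    simpa using hij
  exact ⟨Equiv.ofBijective _ h, fun i => rfl⟩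

lemma nodupA (c d e g : ℕ) (L : List ℕ) (hnd : L.Nodup)
    (hm : ∀ x ∈ L, (1 ≤ x ∧ x < 11) ∧ x ≠ c ∧ x ≠ d ∧ x ≠ e ∧ x ≠ g)
    (hc : 1 ≤ c ∧ c < 11) (hd : 1 ≤ d ∧ d < 11) (he : 1 ≤ e ∧ e < 11) (hg : 1 ≤ g ∧ g < 11)
    (hcd : c < d) (hce : c < e) (heg : e < g) (hed : e ≠ d) (hgd : g ≠ d) :
    (11 :: 0 :: c :: d :: e :: g :: L).Nodup := by
  refine List.nodup_cons.mpr ⟨?_, List.nodup_cons.mpr ⟨?_, List.nodup_cons.mpr ⟨?_,
    List.nodup_cons.mpr ⟨?_, List.nodup_cons.mpr ⟨?_, List.nodup_cons.mpr ⟨?_, hnd⟩⟩⟩⟩⟩⟩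
  · intro hx
    simp only [List.mem_cons] at hx
    rcases hx with h | h | h | h | h | h
    any_goals omega
    have := hm _ h
    omega
  · intro hx
    simp only [List.mem_cons] at hx
    rcases hx with h | h | h | h | h
    any_goals omega
    have := hm _ h
    omega
  · intro hx
    simp only [List.mem_cons] at hx
    rcases hx with h | h | h | h
    any_goals omega
    exact (hm _ h).2.1 rfl
  · intro hx
    simp only [List.mem_cons] at hx
    rcases hx with h | h | h
    any_goals omega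
    exact (hm _ h).2.2.1 rfl
  · intro hx
    simp only [List.mem_cons] at hx
    rcases hx with h | h
    any_goals omega
    exact (hm _ h).2.2.2.1 rfl
  · intro h
    exact (hm _ h).2.2.2.2 rfl

lemma nodupB (b c d e g : ℕ) (L : List ℕ) (hnd : L.Nodup)
    (hm : ∀ x ∈ L, (1 ≤ x ∧ x < 11) ∧ x ≠ b ∧ x ≠ c ∧ x ≠ d ∧ x ≠ e ∧ x ≠ g)
    (hb : 1 ≤ b ∧ b < 11) (hc : 1 ≤ c ∧ c < 11) (hd : 1 ≤ d ∧ d < 11) (he : 1 ≤ e ∧ e < 11)
    (hg : 1 ≤ g ∧ g < 11) (hcb : c ≠ b) (hdb : d ≠ b) (heb : e ≠ b) (hgb : g ≠ b)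
    (hcd : c < d) (hce : c < e) (heg : e < g) (hed : e ≠ d) (hgd : g ≠ d) :
    (11 :: 0 :: b :: c :: d :: e :: g :: L).Nodup := by
  refine List.nodup_cons.mpr ⟨?_, List.nodup_cons.mpr ⟨?_, List.nodup_cons.mpr ⟨?_,
    List.nodup_cons.mpr ⟨?_, List.nodup_cons.mpr ⟨?_, List.nodup_cons.mpr ⟨?_,
    List.nodup_cons.mpr ⟨?_, hnd⟩⟩⟩⟩⟩⟩⟩
  · intro hx
    simp only [List.mem_cons] at hx
    rcases hx with h | h | h | h | h | h | h
    any_goals omega
    have := hm _ h
    omega
  · intro hx
    simp only [List.mem_cons] at hx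
    rcases hx with h | h | h | h | h | h
    any_goals omega
    have := hm _ h
    omega
  · intro hx
    simp only [List.mem_cons] at hx
    rcases hx with h | h | h | h | h
    any_goals omega
    exact (hm _ h).2.1 rfl
  · intro hx
    simp only [List.mem_cons] at hx
    rcases hx with h | h | h | h
    any_goals omega
    exact (hm _ h).2.2.1 rfl
  · intro hx
    simp only [List.mem_cons] at hx
    rcases hx with h | h | h
    any_goals omega
    exact (hm _ h).2.2.2.1 rfl
  · intro hx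
    simp only [List.mem_cons] at hx
    rcases hx with h | h
    any_goals omega
    exact (hm _ h).2.2.2.2.1 rfl
  · intro h
    exact (hm _ h).2.2.2.2.2 rfl

lemma normA (c d e g : Fin 12) (hc : 1 ≤ c.val ∧ c.val < 11) (hd : 1 ≤ d.val ∧ d.val < 11)
    (he : 1 ≤ e.val ∧ e.val < 11) (hg : 1 ≤ g.val ∧ g.val < 11) (hcd : c.val < d.val)
    (hce : c.val < e.val) (heg : e.val < g.val) (hed : e.val ≠ d.val) (hgd : g.val ≠ d.val) :
    cnt 11 0 c d e g = 6 := by
  have hr : ∀ x : ℕ, 1 ≤ x ∧ x < 11 → x ∈ List.range' 1 10 := by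
    intro x hx
    rw [List.mem_range'_1]
    omega
  have h := chkA_true (hr _ hc) (hr _ hd) (hr _ he) (hr _ hg) hcd hce heg hed hgd
  unfold chkA at h
  split at h
  · rename_i p6 p7 p8 p9 p10 p11 hL
    have hcnt := (beq_iff_eq.mp h)
    have hnd : [p6, p7, p8, p9, p10, p11].Nodup := by
      rw [← hL]
      exact List.Nodup.filter _ (List.nodup_range')
    have hm : ∀ x ∈ [p6, p7, p8, p9, p10, p11],
        (1 ≤ x ∧ x < 11) ∧ x ≠ c.val ∧ x ≠ d.val ∧ x ≠ e.val ∧ x ≠ g.val := by
      intro x hx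
      rw [← hL, List.mem_filter] at hx
      obtain ⟨h1, h2⟩ := hx
      rw [List.mem_range'_1] at h1
      simp only [Bool.not_eq_true', Bool.or_eq_false_iff, beq_eq_false_iff_ne, ne_eq] at h2
      exact ⟨⟨h1.1, h1.2⟩, h2.1.1.1, h2.1.1.2, h2.1.2, h2.2⟩
    have hall := nodupA c.val d.val e.val g.val _ hnd hm hc hd he hg hcd hce heg hed hgd
    have hofn : (11 :: 0 :: c.val :: d.val :: e.val :: g.val :: [p6, p7, p8, p9, p10, p11]) =
        List.ofFn ![11, 0, c.val, d.val, e.val, g.val, p6, p7, p8, p9, p10, p11] := by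
      simp [List.ofFn_succ]
    rw [hofn, List.nodup_ofFn] at hall
    have hl : ∀ x ∈ [p6, p7, p8, p9, p10, p11], x < 12 := fun x hx => by
      have := (hm x hx).1
      omega
    obtain ⟨φ, hφ⟩ := exists_perm _ (by
      intro i
      fin_cases i
      · show 11 < 12; omega
      · show 0 < 12; omega
      · show c.val < 12; omega
      · show d.val < 12; omega
      · show e.val < 12; omega
      · show g.val < 12; omega
      · exact hl p6 (by simp)
      · exact hl p7 (by simp)
      · exact hl p8 (by simp)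
      · exact hl p9 (by simp)
      · exact hl p10 (by simp)
      · exact hl p11 (by simp)) hall
    have e0 : φ 0 = 11 := Fin.ext (hφ 0)
    have e1 : φ 1 = 0 := Fin.ext (hφ 1)
    have e2 : φ 2 = c := Fin.ext (hφ 2)
    have e3 : φ 3 = d := Fin.ext (hφ 3)
    have e4 : φ 4 = e := Fin.ext (hφ 4)
    have e5 : φ 5 = g := Fin.ext (hφ 5)
    have e6 : (φ 6).val = p6 := hφ 6
    have e7 : (φ 7).val = p7 := hφ 7
    have e8 : (φ 8).val = p8 := hφ 8
    have e9 : (φ 9).val = p9 := hφ 9
    have e10 : (φ 10).val = p10 := hφ 10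
    have e11 : (φ 11).val = p11 := hφ 11
    have := caseA φ e0 e1
    rw [e0, e1, e2, e3, e4, e5, e6, e7, e8, e9, e10, e11] at this
    rw [this, hcnt]
  · exact absurd h (by decide)

lemma normB (b c d e g : Fin 12) (hb : 1 ≤ b.val ∧ b.val < 11) (hc : 1 ≤ c.val ∧ c.val < 11)
    (hd : 1 ≤ d.val ∧ d.val < 11)
    (he : 1 ≤ e.val ∧ e.val < 11) (hg : 1 ≤ g.val ∧ g.val < 11) (hcb : c.val ≠ b.val)
    (hdb : d.val ≠ b.val) (heb : e.val ≠ b.val) (hgb : g.val ≠ b.val) (hcd : c.val < d.val)
    (hce : c.val < e.val) (heg : e.val < g.val) (hed : e.val ≠ d.val) (hgd : g.val ≠ d.val) :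
    cnt 0 b c d e g = 6 := by
  have hr : ∀ x : ℕ, 1 ≤ x ∧ x < 11 → x ∈ List.range' 1 10 := by
    intro x hx
    rw [List.mem_range'_1]
    omega
  have h := chkB_true (hr _ hb) (hr _ hc) (hr _ hd) (hr _ he) (hr _ hg) hcb hdb heb hgb
    hcd hce heg hed hgd
  unfold chkB at h
  split at h
  · rename_i p6 p7 p8 p9 p10 hL
    have hcnt := (beq_iff_eq.mp h)
    have hnd : [p6, p7, p8, p9, p10].Nodup := by
      rw [← hL]
      exact List.Nodup.filter _ (List.nodup_range')
    have hm : ∀ x ∈ [p6, p7, p8, p9, p10],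
        (1 ≤ x ∧ x < 11) ∧ x ≠ b.val ∧ x ≠ c.val ∧ x ≠ d.val ∧ x ≠ e.val ∧ x ≠ g.val := by
      intro x hx
      rw [← hL, List.mem_filter] at hx
      obtain ⟨h1, h2⟩ := hx
      rw [List.mem_range'_1] at h1
      simp only [Bool.not_eq_true', Bool.or_eq_false_iff, beq_eq_false_iff_ne, ne_eq] at h2
      exact ⟨⟨h1.1, h1.2⟩, h2.1.1.1.1, h2.1.1.1.2, h2.1.1.2, h2.1.2, h2.2⟩
    have hall := nodupB b.val c.val d.val e.val g.val _ hnd hm hb hc hd he hg hcb hdb heb hgb
      hcd hce heg hed hgd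
    have hofn : (11 :: 0 :: b.val :: c.val :: d.val :: e.val :: g.val :: [p6, p7, p8, p9, p10]) =
        List.ofFn ![11, 0, b.val, c.val, d.val, e.val, g.val, p6, p7, p8, p9, p10] := by
      simp [List.ofFn_succ]
    rw [hofn, List.nodup_ofFn] at hall
    have hall2 : Function.Injective
        (![11, 0, b.val, c.val, d.val, e.val, g.val, p6, p7, p8, p9, p10] ∘
          (![1, 2, 3, 4, 5, 6, 7, 8, 9, 10, 11, 0] : Fin 12 → Fin 12)) :=
      hall.comp (by decide)
    have hl : ∀ x ∈ [p6, p7, p8, p9, p10], x < 12 := fun x hx => by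
      have := (hm x hx).1
      omega
    obtain ⟨φ, hφ⟩ := exists_perm _ (by
      intro i
      fin_cases i
      · show 0 < 12; omega
      · show b.val < 12; omega
      · show c.val < 12; omega
      · show d.val < 12; omega
      · show e.val < 12; omega
      · show g.val < 12; omega
      · exact hl p6 (by simp)
      · exact hl p7 (by simp)
      · exact hl p8 (by simp)
      · exact hl p9 (by simp)
      · exact hl p10 (by simp)
      · show 11 < 12; omega) hall2
    have e0 : φ 0 = 0 := Fin.ext (hφ 0)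
    have e1 : φ 1 = b := Fin.ext (hφ 1)
    have e2 : φ 2 = c := Fin.ext (hφ 2)
    have e3 : φ 3 = d := Fin.ext (hφ 3)
    have e4 : φ 4 = e := Fin.ext (hφ 4)
    have e5 : φ 5 = g := Fin.ext (hφ 5)
    have e6 : (φ 6).val = p6 := hφ 6
    have e7 : (φ 7).val = p7 := hφ 7
    have e8 : (φ 8).val = p8 := hφ 8
    have e9 : (φ 9).val = p9 := hφ 9
    have e10 : (φ 10).val = p10 := hφ 10
    have e11 : φ 11 = 11 := Fin.ext (hφ 11)
    have := caseB φ e0 e11
    rw [e0, e1, e2, e3, e4, e5, e6, e7, e8, e9, e10] at this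
    rw [this, hcnt]
  · exact absurd h (by decide)

/-- removal of the assumptions on the order -/
lemma ord (P : Fin 12 → Fin 12 → Fin 12 → Fin 12 → Prop)
    (h1 : ∀ c d e g, P c d e g → P d c e g) (h2 : ∀ c d e g, P c d e g → P c d g e)
    (h3 : ∀ c d e g, P c d e g → P e g c d) (c d e g : Fin 12) (S : Fin 12 → Prop)
    (hP : ∀ c d e g : Fin 12, S c → S d → S e → S g → c < d → c < e → e < g → e ≠ d → g ≠ d →
      P c d e g)
    (sc : S c) (sd : S d) (se : S e) (sg : S g) (hcd : c ≠ d) (hce : c ≠ e) (hcg : c ≠ g)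
    (hde : d ≠ e) (hdg : d ≠ g) (heg : e ≠ g) : P c d e g := by
  have k1 : ∀ c d e g : Fin 12, S c → S d → S e → S g → c < d → e < g → c ≠ e → c ≠ g → d ≠ e →
      d ≠ g → P c d e g := by
    intro c d e g sc sd se sg hcd heg hce hcg hde hdg
    rcases lt_or_gt_of_ne hce with h | h
    · exact hP c d e g sc sd se sg hcd h heg hde.symm hdg.symm
    · exact h3 _ _ _ _ (hP e g c d se sg sc sd heg h hcd hcg hdg)
  have k2 : ∀ c d e g : Fin 12, S c → S d → S e → S g → c < d → e ≠ g → c ≠ e → c ≠ g → d ≠ e →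
      d ≠ g → P c d e g := by
    intro c d e g sc sd se sg hcd heg hce hcg hde hdg
    rcases lt_or_gt_of_ne heg with h | h
    · exact k1 c d e g sc sd se sg hcd h hce hcg hde hdg
    · exact h2 _ _ _ _ (k1 c d g e sc sd sg se hcd h hcg hce hdg hde)
  rcases lt_or_gt_of_ne hcd with h | h
  · exact k2 c d e g sc sd se sg h heg hce hcg hde hdg
  · exact h1 _ _ _ _ (k2 d c e g sd sc se sg h heg hde hdg hce hcg)

lemma cnt_swap2 (a b c d e g : Fin 12) : cnt a b c d e g = cnt a b d c e g := by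
  rw [cnt_rot, cnt_swap, ← cnt_rot]

lemma cnt_swap3 (a b c d e g : Fin 12) : cnt a b c d e g = cnt a b c d g e := by
  rw [cnt_ex, cnt_swap2, cnt_ex]

lemma normA' (c d e g : Fin 12) (hc : 1 ≤ c.val ∧ c.val < 11) (hd : 1 ≤ d.val ∧ d.val < 11)
    (he : 1 ≤ e.val ∧ e.val < 11) (hg : 1 ≤ g.val ∧ g.val < 11) (hcd : c ≠ d)
    (hce : c ≠ e) (hcg : c ≠ g) (hde : d ≠ e) (hdg : d ≠ g) (heg : e ≠ g) :
    cnt 11 0 c d e g = 6 := by
  refine ord (fun c d e g => cnt 11 0 c d e g = 6) ?_ ?_ ?_ c d e g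
    (fun x => 1 ≤ x.val ∧ x.val < 11) ?_ hc hd he hg hcd hce hcg hde hdg heg
  · intro c d e g h
    rw [cnt_swap2]; exact h
  · intro c d e g h
    rw [cnt_swap3]; exact h
  · intro c d e g h
    rw [cnt_ex]; exact h
  · intro c d e g hc hd he hg h1 h2 h3 h4 h5
    exact normA c d e g hc hd he hg h1 h2 h3 (fun h => h4 (Fin.ext h)) (fun h => h5 (Fin.ext h))

lemma normB' (b c d e g : Fin 12) (hb : 1 ≤ b.val ∧ b.val < 11) (hc : 1 ≤ c.val ∧ c.val < 11)
    (hd : 1 ≤ d.val ∧ d.val < 11) (he : 1 ≤ e.val ∧ e.val < 11) (hg : 1 ≤ g.val ∧ g.val < 11)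
    (hcb : c ≠ b) (hdb : d ≠ b) (heb : e ≠ b) (hgb : g ≠ b) (hcd : c ≠ d)
    (hce : c ≠ e) (hcg : c ≠ g) (hde : d ≠ e) (hdg : d ≠ g) (heg : e ≠ g) :
    cnt 0 b c d e g = 6 := by
  refine ord (fun c d e g => cnt 0 b c d e g = 6) ?_ ?_ ?_ c d e g
    (fun x => (1 ≤ x.val ∧ x.val < 11) ∧ x ≠ b) ?_ ⟨hc, hcb⟩ ⟨hd, hdb⟩ ⟨he, heb⟩ ⟨hg, hgb⟩
    hcd hce hcg hde hdg heg
  · intro c d e g h
    rw [cnt_swap2]; exact h
  · intro c d e g h
    rw [cnt_swap3]; exact h
  · intro c d e g h
    rw [cnt_ex]; exact h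
  · intro c d e g hc hd he hg h1 h2 h3 h4 h5
    exact normB b c d e g hb hc.1 hd.1 he.1 hg.1 (fun h => hc.2 (Fin.ext h))
      (fun h => hd.2 (Fin.ext h)) (fun h => he.2 (Fin.ext h)) (fun h => hg.2 (Fin.ext h))
      h1 h2 h3 (fun h => h4 (Fin.ext h)) (fun h => h5 (Fin.ext h))

/-- the number of members containing the three edges of `x` -/
noncomputable def C (x : Fin 6 → Fin 12) : ℕ := cnt (x 0) (x 1) (x 2) (x 3) (x 4) (x 5)

lemma C_sh (k : ℕ) (x : Fin 6 → Fin 12) : C (fun i => (sh ^ k) (x i)) = C x := by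
  induction k with
  | zero => simp
  | succ k ih =>
    rw [← ih]
    unfold C
    simp only [pow_succ', Equiv.Perm.mul_apply]
    exact cnt_sh _ _ _ _ _ _

lemma exists_shift : ∀ t : Fin 12, t ≠ 11 → ∃ k : Fin 11, (sh ^ k.val) t = 0 := by
  decide +kernel

lemma shift_eleven (k : ℕ) : (sh ^ k) 11 = 11 := by
  induction k with
  | zero => rfl
  | succ k ih =>
    rw [pow_succ', Equiv.Perm.mul_apply, ih]
    decide

/-- any of the six entries may be moved to the first place -/
lemma exists_sym (i : Fin 6) : ∃ σ : Fin 6 → Fin 6, Function.Injective σ ∧ σ 0 = i ∧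
    ∀ x : Fin 6 → Fin 12, C (x ∘ σ) = C x := by
  fin_cases i
  · exact ⟨![0, 1, 2, 3, 4, 5], by decide, rfl, fun x => rfl⟩
  · refine ⟨![1, 0, 2, 3, 4, 5], by decide, rfl, fun x => ?_⟩
    exact cnt_swap _ _ _ _ _ _
  · refine ⟨![2, 3, 4, 5, 0, 1], by decide, rfl, fun x => ?_⟩
    exact (cnt_rot _ _ _ _ _ _).symm
  · refine ⟨![3, 2, 4, 5, 0, 1], by decide, rfl, fun x => ?_⟩
    exact (cnt_swap _ _ _ _ _ _).trans (cnt_rot _ _ _ _ _ _).symm
  · refine ⟨![4, 5, 0, 1, 2, 3], by decide, rfl, fun x => ?_⟩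
    exact (cnt_rot _ _ _ _ _ _)
  · refine ⟨![5, 4, 0, 1, 2, 3], by decide, rfl, fun x => ?_⟩
    exact (cnt_swap _ _ _ _ _ _).trans (cnt_rot _ _ _ _ _ _)

lemma val_range (x : Fin 12) (h0 : x ≠ 0) (h1 : x ≠ 11) : 1 ≤ x.val ∧ x.val < 11 := by
  have a : x.val ≠ 0 := fun h => h0 (Fin.ext h)
  have b : x.val ≠ 11 := fun h => h1 (Fin.ext h)
  have := x.isLt
  omega

theorem C_eq (x : Fin 6 → Fin 12) (hx : Function.Injective x) : C x = 6 := by
  have hne : ∀ (z : Fin 6 → Fin 12), Function.Injective z → ∀ i j : Fin 6, i ≠ j → z i ≠ z j :=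
    fun z hz i j hij h => hij (hz h)
  by_cases h : ∃ i, x i = 11
  · obtain ⟨i, hi⟩ := h
    obtain ⟨σ, hσ, h0, hC⟩ := exists_sym i
    have hy : Function.Injective (x ∘ σ) := hx.comp hσ
    have hy0 : (x ∘ σ) 0 = 11 := by
      show x (σ 0) = 11
      rw [h0, hi]
    have hy1 : (x ∘ σ) 1 ≠ 11 := by
      intro h
      exact hne _ hy 1 0 (by decide) (h.trans hy0.symm)
    obtain ⟨k, hk⟩ := exists_shift _ hy1
    rw [← hC x, ← C_sh k.val]
    set z : Fin 6 → Fin 12 := fun i => (sh ^ k.val) ((x ∘ σ) i) with hz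
    have hzi : Function.Injective z := (sh ^ k.val).injective.comp hy
    have z0 : z 0 = 11 := by
      show (sh ^ k.val) ((x ∘ σ) 0) = 11
      rw [hy0, shift_eleven]
    have z1 : z 1 = 0 := hk
    have hr : ∀ j : Fin 6, j ≠ 0 → j ≠ 1 → 1 ≤ (z j).val ∧ (z j).val < 11 := by
      intro j h0 h1
      apply val_range
      · rw [← z1]; exact hne z hzi _ _ h1
      · rw [← z0]; exact hne z hzi _ _ h0
    unfold C
    rw [z0, z1]
    exact normA' _ _ _ _ (hr 2 (by decide) (by decide)) (hr 3 (by decide) (by decide))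
      (hr 4 (by decide) (by decide)) (hr 5 (by decide) (by decide))
      (hne z hzi _ _ (by decide)) (hne z hzi _ _ (by decide)) (hne z hzi _ _ (by decide))
      (hne z hzi _ _ (by decide)) (hne z hzi _ _ (by decide)) (hne z hzi _ _ (by decide))
  · push Not at h
    obtain ⟨k, hk⟩ := exists_shift _ (h 0)
    rw [← C_sh k.val]
    set z : Fin 6 → Fin 12 := fun i => (sh ^ k.val) (x i) with hz
    have hzi : Function.Injective z := (sh ^ k.val).injective.comp hx
    have z0 : z 0 = 0 := hk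
    have hr : ∀ j : Fin 6, j ≠ 0 → 1 ≤ (z j).val ∧ (z j).val < 11 := by
      intro j h0
      apply val_range
      · rw [← z0]; exact hne z hzi _ _ h0
      · intro h'
        apply h j
        apply (sh ^ k.val).injective
        rw [shift_eleven]
        exact h'
    unfold C
    rw [z0]
    exact normB' _ _ _ _ _ (hr 1 (by decide)) (hr 2 (by decide)) (hr 3 (by decide))
      (hr 4 (by decide)) (hr 5 (by decide))
      (hne z hzi _ _ (by decide)) (hne z hzi _ _ (by decide)) (hne z hzi _ _ (by decide))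
      (hne z hzi _ _ (by decide)) (hne z hzi _ _ (by decide)) (hne z hzi _ _ (by decide))
      (hne z hzi _ _ (by decide)) (hne z hzi _ _ (by decide)) (hne z hzi _ _ (by decide))
      (hne z hzi _ _ (by decide))

/-- There is a non-trivial `(3, 1, 1, 1)`-factorisation of `K₁₂` (of index `6`). -/
theorem result : ∃ D : Set (Fin (2 * 6) → Fin (2 * 6)), IsFactorisation 6 D 6 ∧
    ∃ f : Fin (2 * 6) → Fin (2 * 6), IsPM f ∧ f ∉ D := by
  have key := C_eq ![0, 1, 2, 3, 4, 5] (by decide)
  refine ⟨D, ⟨?_, fun f hf => hf.1, by norm_num, fun x hx => C_eq x hx⟩, ?_⟩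
  · by_contra hD
    rw [Set.not_nonempty_iff_eq_empty] at hD
    unfold C cnt at key
    rw [hD] at key
    simp at key
  · by_contra hall
    push Not at hall
    have h15 : (15 : ℕ) ≤ C ![0, 1, 2, 3, 4, 5] := by
      unfold C cnt
      have hsub : Set.range H ⊆ {f ∈ D | f 0 = 1 ∧ f 2 = 3 ∧ f 4 = 5} := by
        rintro f ⟨i, rfl⟩
        exact ⟨hall _ (H_pm i), H_T i⟩
      have h1 := Set.ncard_le_ncard hsub (Set.toFinite _)
      have h2 : (Set.range H).ncard = 15 := by
        rw [← Set.image_univ, Set.ncard_image_of_injective _ H_inj, Set.ncard_univ]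
        simp
      rw [h2] at h1
      exact h1
    omega

end Pool.Agent.Results.MP_5a4a69_co.IndexSix
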